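import Pool.Agent.Helper92.Ru.GoalsW

/-! Packet W4a (TwoFil) for MP_d1d051_nt: two filtrations on one finite dimensional space. -/

set_option autoImplicit false

namespace Pool.Agent.Helper3.Ru

open Pool.Agent.Helper92.Ru

theorem step_le {k : Type} [Field k] {V : Type} [AddCommGroup V] [Module k V]
    [FiniteDimensional k V] (F G : ℕ → Submodule k V) (hF : Antitone F) (hG : Antitone G)
    (t i : ℕ) :
    (Module.finrank k ((⨆ l : Fin (t + 1), F l ⊓ G (t - l)) ⊓ F i : Submodule k V) : ℤ) -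
      Module.finrank k ((⨆ l : Fin (t + 1), F l ⊓ G (t - l)) ⊓ F (i + 1) : Submodule k V) ≤
    (Module.finrank k (F i ⊓ G (t - i) : Submodule k V) : ℤ) -
      Module.finrank k (F (i + 1) ⊓ G (t - i) : Submodule k V) := by
  set H : Submodule k V := ⨆ l : Fin (t + 1), F l ⊓ G (t - l) with hH
  have hR : F (i + 1) ≤ F i := hF (Nat.le_succ i)
  have h1 : H ≤ G (t - i) ⊔ F (i + 1) := by
    rw [hH]
    refine iSup_le fun l => ?_
    rcases Nat.lt_or_ge i l with h | h
    · exact le_trans inf_le_left (le_trans (hF h) le_sup_right)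
    · exact le_trans inf_le_right (le_trans (hG (Nat.sub_le_sub_left h t)) le_sup_left)
  have h2 : H ⊓ F i ≤ (F i ⊓ G (t - i)) ⊔ F (i + 1) := by
    intro x hx
    have hx1 := h1 hx.1
    rcases Submodule.mem_sup.1 hx1 with ⟨y, hy, z, hz, hyz⟩
    refine Submodule.mem_sup.2 ⟨y, ⟨?_, hy⟩, z, hz, hyz⟩
    have : y = x - z := by rw [← hyz]; abel
    rw [this]
    exact Submodule.sub_mem _ hx.2 (hR hz)
  have h3 : Module.finrank k ((H ⊓ F i) ⊔ F (i + 1) : Submodule k V) ≤
      Module.finrank k ((F i ⊓ G (t - i)) ⊔ F (i + 1) : Submodule k V) :=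
    Submodule.finrank_mono (sup_le h2 le_sup_right)
  have h4 := Submodule.finrank_sup_add_finrank_inf_eq (H ⊓ F i) (F (i + 1))
  have h5 := Submodule.finrank_sup_add_finrank_inf_eq (F i ⊓ G (t - i)) (F (i + 1))
  have e1 : (H ⊓ F i) ⊓ F (i + 1) = H ⊓ F (i + 1) := by
    rw [inf_assoc, inf_eq_right.2 hR]
  have e2 : (F i ⊓ G (t - i)) ⊓ F (i + 1) = F (i + 1) ⊓ G (t - i) := by
    rw [inf_comm (F i), inf_assoc, inf_eq_right.2 hR, inf_comm]
  rw [e1] at h4
  rw [e2] at h5
  omega

/-- packet TwoFil (W4a) -/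
theorem twoFil : TwoFil := by
  intro k _ V _ _ _ F G hF hG hF0 hG0 A B hFA hGB N
  set D : ℕ → ℕ → ℤ := fun i j => (Module.finrank k (F i ⊓ G j : Submodule k V) : ℤ) with hD
  set e : ℕ → ℕ → ℤ := fun i s => D i s - D (i + 1) s with he
  have hmono : ∀ i s, D (i + 1) s ≤ D i s := by
    intro i s
    have : Module.finrank k (F (i + 1) ⊓ G s : Submodule k V) ≤
        Module.finrank k (F i ⊓ G s : Submodule k V) :=
      Submodule.finrank_mono (inf_le_inf_right _ (hF (Nat.le_succ i)))
    simp only [hD]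
    exact_mod_cast this
  have he0 : ∀ i s, 0 ≤ e i s := fun i s => sub_nonneg.2 (hmono i s)
  have hDB : ∀ i s, B + 1 ≤ s → D i s = 0 := by
    intro i s hs
    have h : G s = ⊥ := le_bot_iff.1 (hGB ▸ hG hs)
    change ((Module.finrank k (F i ⊓ G s : Submodule k V) : ℕ) : ℤ) = 0
    rw [h, inf_bot_eq, finrank_bot]
    rfl
  have hDA : ∀ s, D (A + 1) s = 0 := by
    intro s
    change ((Module.finrank k (F (A + 1) ⊓ G s : Submodule k V) : ℕ) : ℤ) = 0
    rw [hFA, bot_inf_eq, finrank_bot]
    rfl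
  have heB : ∀ i s, B + 1 ≤ s → e i s = 0 := by
    intro i s hs
    simp only [he, hDB i s hs, hDB (i + 1) s hs, sub_zero]
  -- step 1
  have s1 : ∀ t, (Module.finrank k (⨆ i : Fin (t + 1), F i ⊓ G (t - i) : Submodule k V) : ℤ) ≤
      ∑ i ∈ Finset.range (A + 1), e i (t - i) := by
    intro t
    have tel : ∀ M : ℕ,
        (Module.finrank k ((⨆ l : Fin (t + 1), F l ⊓ G (t - l)) ⊓ F 0 : Submodule k V) : ℤ) -
        Module.finrank k ((⨆ l : Fin (t + 1), F l ⊓ G (t - l)) ⊓ F M : Submodule k V) ≤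
        ∑ i ∈ Finset.range M, e i (t - i) := by
      intro M
      induction M with
      | zero => simp
      | succ M ih =>
        rw [Finset.sum_range_succ]
        have := step_le F G hF hG t M
        simp only [he, hD] at ih ⊢
        linarith
    have h := tel (A + 1)
    rw [hF0, hFA, inf_top_eq, inf_bot_eq, finrank_bot] at h
    simpa using h
  -- step 2
  have s2 : ∀ i, ∑ t ∈ Finset.Icc 1 N, e i (t - i) ≤
      (i : ℤ) * e i 0 + ∑ s ∈ Finset.range B, e i (s + 1) := by
    intro i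
    have a1 : ∑ t ∈ Finset.Icc 1 N, e i (t - i) = ∑ t ∈ Finset.range N, e i (t + 1 - i) := by
      rw [Finset.range_eq_Ico, Finset.sum_Ico_add' (fun t => e i (t - i)) 0 N 1]
      rfl
    have a2 : ∑ t ∈ Finset.range N, e i (t + 1 - i) ≤
        ∑ t ∈ Finset.range (i + (B + N)), e i (t + 1 - i) :=
      Finset.sum_le_sum_of_subset_of_nonneg
        (Finset.range_mono (by omega)) (fun t _ _ => he0 _ _)
    have a3 : ∑ t ∈ Finset.range (i + (B + N)), e i (t + 1 - i) =
        ∑ t ∈ Finset.range i, e i (t + 1 - i) +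
          ∑ s ∈ Finset.range (B + N), e i (i + s + 1 - i) := Finset.sum_range_add _ _ _
    have a4 : ∑ t ∈ Finset.range i, e i (t + 1 - i) = (i : ℤ) * e i 0 := by
      rw [Finset.sum_congr rfl (g := fun _ => e i 0)]
      · simp
      · intro t ht
        have : t + 1 - i = 0 := by
          have := Finset.mem_range.1 ht
          omega
        rw [this]
    have a5 : ∑ s ∈ Finset.range (B + N), e i (i + s + 1 - i) =
        ∑ s ∈ Finset.range B, e i (s + 1) := by
      rw [Finset.sum_range_add]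
      have z : ∑ x ∈ Finset.range N, e i (i + (B + x) + 1 - i) = 0 := by
        refine Finset.sum_eq_zero fun x _ => ?_
        exact heB _ _ (by omega)
      rw [z, add_zero]
      refine Finset.sum_congr rfl fun s _ => ?_
      congr 1
      omega
    rw [a1]
    rw [a3, a4, a5] at a2
    exact a2
  -- step 3: Abel summation
  have s3 : ∀ M : ℕ, ∑ i ∈ Finset.range (M + 1), (i : ℤ) * e i 0 =
      ∑ i ∈ Finset.range M, D (i + 1) 0 - M * D (M + 1) 0 := by
    intro M
    induction M with
    | zero => simp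
    | succ M ih =>
      rw [Finset.sum_range_succ, ih, Finset.sum_range_succ]
      simp only [he]
      push_cast
      ring
  have s4 : ∀ s M, ∑ i ∈ Finset.range M, e i s = D 0 s - D M s := by
    intro s M
    induction M with
    | zero => simp
    | succ M ih =>
      rw [Finset.sum_range_succ, ih]
      simp only [he]
      ring
  have hD0 : ∀ i, D i 0 = (Module.finrank k (F i) : ℤ) := by
    intro i
    change ((Module.finrank k (F i ⊓ G 0 : Submodule k V) : ℕ) : ℤ) = _
    rw [hG0, inf_top_eq]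
  have hD0' : ∀ s, D 0 s = (Module.finrank k (G s) : ℤ) := by
    intro s
    change ((Module.finrank k (F 0 ⊓ G s : Submodule k V) : ℕ) : ℤ) = _
    rw [hF0, top_inf_eq]
  have fin : ((∑ t ∈ Finset.Icc 1 N,
        Module.finrank k (⨆ i : Fin (t + 1), F i ⊓ G (t - i) : Submodule k V) : ℕ) : ℤ) ≤
      (((∑ t ∈ Finset.Icc 1 A, Module.finrank k (F t)) +
        ∑ t ∈ Finset.Icc 1 B, Module.finrank k (G t) : ℕ) : ℤ) := by
    push_cast
    calc ∑ t ∈ Finset.Icc 1 N,
          (Module.finrank k (⨆ i : Fin (t + 1), F i ⊓ G (t - i) : Submodule k V) : ℤ)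
        ≤ ∑ t ∈ Finset.Icc 1 N, ∑ i ∈ Finset.range (A + 1), e i (t - i) :=
          Finset.sum_le_sum fun t _ => s1 t
      _ = ∑ i ∈ Finset.range (A + 1), ∑ t ∈ Finset.Icc 1 N, e i (t - i) := Finset.sum_comm
      _ ≤ ∑ i ∈ Finset.range (A + 1), ((i : ℤ) * e i 0 + ∑ s ∈ Finset.range B, e i (s + 1)) :=
          Finset.sum_le_sum fun i _ => s2 i
      _ = ∑ i ∈ Finset.range A, D (i + 1) 0 + ∑ s ∈ Finset.range B, D 0 (s + 1) := by
          rw [Finset.sum_add_distrib, s3 A, hDA, mul_zero, sub_zero, Finset.sum_comm]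
          congr 1
          refine Finset.sum_congr rfl fun s _ => ?_
          rw [s4, hDA, sub_zero]
      _ = ∑ t ∈ Finset.Icc 1 A, (Module.finrank k (F t) : ℤ) +
            ∑ t ∈ Finset.Icc 1 B, (Module.finrank k (G t) : ℤ) := by
          have c : ∀ (f : ℕ → ℤ) (M : ℕ), ∑ i ∈ Finset.range M, f (i + 1) =
              ∑ t ∈ Finset.Icc 1 M, f t := by
            intro f M
            rw [Finset.range_eq_Ico, Finset.sum_Ico_add' f 0 M 1]
            rfl
          rw [c (fun i => D i 0) A, c (fun s => D 0 s) B]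
          congr 1
          · exact Finset.sum_congr rfl fun i _ => hD0 i
          · exact Finset.sum_congr rfl fun i _ => hD0' i
  exact_mod_cast fin

end Pool.Agent.Helper3.Ru
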