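import Pool.Agent.Helper92.Ru.GoalsS

/-! Packet WwdBasic (S16) for MP_d1d051_nt. -/

set_option autoImplicit false

namespace Pool.Agent.Helper3.Ru

open Pool.Agent.Helper92.Ru

section

variable {k : Type} [Field k]

/-- the wedge as an alternating map -/
noncomputable def wdA (k : Type) [Field k] (r N : ℕ) :
    (Fin N → k) [⋀^Fin r]→ₗ[k] (JJ r N → k) :=
  AlternatingMap.pi fun I => (Matrix.detRowAlternating (n := Fin r) (R := k)).compLinearMap
    (LinearMap.funLeft k k I.emb)

theorem wdA_apply {r N : ℕ} (y : Fin r → Fin N → k) : wdA k r N y = wd y := by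
  ext I
  change Matrix.det (Matrix.of fun b => (LinearMap.funLeft k k I.emb) (y b)) =
    (Matrix.of fun a b => y b (I.emb a)).det
  rw [← Matrix.det_transpose]
  rfl

theorem exists_sub {r N : ℕ} (φ : Fin r → Fin N) (hφ : Function.Injective φ) :
    ∃ (I : JJ r N) (σ : Equiv.Perm (Fin r)), ∀ b, I.emb (σ b) = φ b := by
  classical
  have hs : (Finset.univ.image φ).card = r := by
    rw [Finset.card_image_of_injective _ hφ, Finset.card_univ, Fintype.card_fin]
  have hmem : ∀ b, φ b ∈ Finset.univ.image φ := fun b =>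
    Finset.mem_image_of_mem φ (Finset.mem_univ b)
  let f : Fin r → Fin r := fun b => ((Finset.univ.image φ).orderIsoOfFin hs).symm ⟨φ b, hmem b⟩
  have hf : ∀ b, (Finset.univ.image φ).orderEmbOfFin hs (f b) = φ b := by
    intro b
    rw [← Finset.coe_orderIsoOfFin_apply]
    simp [f]
  have hinj : Function.Injective f := by
    intro a b hab
    apply hφ
    rw [← hf a, ← hf b, hab]
  exact ⟨⟨Finset.univ.image φ, hs⟩,
    Equiv.ofBijective f ((Finite.injective_iff_bijective).1 hinj), hf⟩

theorem wd_mem {r N : ℕ} (x : Fin N → Fin N → k) (hx : LinearIndependent k x)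
    (P : Fin N → Prop) (y : Fin r → Fin N → k) (b0 : Fin r)
    (hy : y b0 ∈ Submodule.span k (x '' {j | P j})) :
    wd y ∈ Submodule.span k ((fun I : JJ r N => wd (fun b => x (I.emb b))) ''
      {I | ∃ b, P (I.emb b)}) := by
  classical
  let bx : Module.Basis (Fin N) k (Fin N → k) :=
    basisOfLinearIndependentOfCardEqFinrank' x hx (by simp)
  have hbx : ∀ j, bx j = x j := fun j => by simp [bx]
  have hbx' : (bx : Fin N → Fin N → k) = x := funext hbx
  have hc : y = fun b => ∑ j, bx.repr (y b) j • x j := by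
    funext b
    rw [← hbx']
    exact (bx.sum_repr (y b)).symm
  have hz : ∀ j, ¬ P j → bx.repr (y b0) j = 0 := by
    intro j hj
    rw [← hbx', Module.Basis.mem_span_image] at hy
    by_contra h
    exact hj (hy (Finsupp.mem_support_iff.2 h))
  rw [← wdA_apply]
  have e : wdA k r N y = ∑ φ : Fin r → Fin N,
      (∏ b, bx.repr (y b) (φ b)) • wdA k r N (fun b => x (φ b)) := by
    conv_lhs => rw [hc]
    have := (wdA k r N).toMultilinearMap.map_sum (fun b j => bx.repr (y b) j • x j)
    refine this.trans (Finset.sum_congr rfl fun φ _ => ?_)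
    exact (wdA k r N).map_smul_univ _ _
  rw [e]
  refine Submodule.sum_mem _ fun φ _ => ?_
  by_cases hP : P (φ b0)
  · refine Submodule.smul_mem _ _ ?_
    by_cases hφ : Function.Injective φ
    · obtain ⟨I, σ, hI⟩ := exists_sub φ hφ
      have e2 : (fun b => x (φ b)) = (fun b => x (I.emb b)) ∘ σ := by
        funext b
        simp only [Function.comp_apply, hI]
      have e3 : wdA k r N (fun b => x (I.emb b)) ∈
          Submodule.span k ((fun I : JJ r N => wd (fun b => x (I.emb b))) ''
          {I | ∃ b, P (I.emb b)}) := by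
        rw [wdA_apply]
        exact Submodule.subset_span ⟨I, ⟨σ b0, by rw [hI]; exact hP⟩, rfl⟩
      rw [e2, AlternatingMap.map_perm]
      rcases Int.units_eq_one_or (Equiv.Perm.sign σ) with h | h
      · rw [h, one_smul]
        exact e3
      · rw [h, Units.neg_smul, one_smul]
        exact Submodule.neg_mem _ e3
    · have : ¬ Function.Injective (fun b => x (φ b)) := fun h =>
        hφ (Function.Injective.of_comp (f := x) h)
      rw [AlternatingMap.map_eq_zero_of_not_injective _ _ this]
      exact Submodule.zero_mem _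
  · rw [Finset.prod_eq_zero (Finset.mem_univ b0) (hz _ hP), zero_smul]
    exact Submodule.zero_mem _

theorem Wwd_eq {r N : ℕ} (x : Fin N → Fin N → k) (hx : LinearIndependent k x)
    (P : Fin N → Prop) (W : Submodule k (Fin N → k))
    (hW : W = Submodule.span k (x '' {j | P j})) :
    Wwd r W = Submodule.span k ((fun I : JJ r N => wd (fun b => x (I.emb b))) ''
      {I | ∃ b, P (I.emb b)}) := by
  apply le_antisymm
  · refine Submodule.span_le.2 ?_
    rintro z ⟨y, ⟨b, hb⟩, rfl⟩
    rw [hW] at hb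
    exact wd_mem x hx P y b hb
  · refine Submodule.span_le.2 ?_
    rintro _ ⟨I, ⟨b, hb⟩, rfl⟩
    refine Submodule.subset_span ⟨fun b => x (I.emb b), ⟨b, ?_⟩, rfl⟩
    rw [hW]
    exact Submodule.subset_span ⟨_, hb, rfl⟩

/-- the last index set -/
def I0 (m l : ℕ) : JJ (l + 1) (m + 1 + l) :=
  ⟨Finset.univ.map ⟨fun b : Fin (l + 1) => (⟨m + b, by omega⟩ : Fin (m + 1 + l)), by
    intro a b h
    have := Fin.mk.inj h
    exact Fin.ext (by omega)⟩, by simp⟩

theorem I0_emb (m l : ℕ) (b : Fin (l + 1)) :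
    (I0 m l).emb b = ⟨m + b, by omega⟩ := by
  have h := Finset.orderEmbOfFin_unique (s := (I0 m l).1) (I0 m l).2
    (f := fun b : Fin (l + 1) => (⟨m + b, by omega⟩ : Fin (m + 1 + l)))
    (fun b => Finset.mem_map.2 ⟨b, Finset.mem_univ b, rfl⟩)
    (fun a b hab => by
      have : (a : ℕ) < b := hab
      exact Fin.mk_lt_mk.2 (by omega))
  exact (congrFun h b).symm

theorem ne_I0_iff (m l : ℕ) (I : JJ (l + 1) (m + 1 + l)) :
    (∃ b, ((I.emb b : Fin (m + 1 + l)) : ℕ) < m) ↔ I ≠ I0 m l := by
  constructor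
  · rintro ⟨b, hb⟩ rfl
    rw [I0_emb] at hb
    simp at hb
  · intro h
    by_contra hc
    push Not at hc
    apply h
    have hsub : I.1 ⊆ (I0 m l).1 := by
      intro j hj
      have hj' : j ∈ Set.range (I.1.orderEmbOfFin I.2) := by
        rw [Finset.range_orderEmbOfFin]
        exact hj
      obtain ⟨b, hb⟩ := hj'
      have h1 : m ≤ (j : ℕ) := by
        have := hc b
        have h2 : (I.emb b : Fin (m + 1 + l)) = j := hb
        rwa [h2] at this
      refine Finset.mem_map.2 ⟨⟨(j : ℕ) - m, by omega⟩, Finset.mem_univ _, ?_⟩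
      refine Fin.ext ?_
      change m + ((j : ℕ) - m) = j
      omega
    exact Subtype.ext (Finset.eq_of_subset_of_card_le hsub (by rw [I.2, (I0 m l).2]))

theorem card_ne_I0 (m l : ℕ) :
    Fintype.card {I : JJ (l + 1) (m + 1 + l) // I ≠ I0 m l} + 1 =
      Fintype.card (JJ (l + 1) (m + 1 + l)) := by
  classical
  have h1 := Fintype.card_subtype_compl (fun I : JJ (l + 1) (m + 1 + l) => I = I0 m l)
  have h2 : Fintype.card {I : JJ (l + 1) (m + 1 + l) // I = I0 m l} = 1 :=
    Fintype.card_subtype_eq _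
  have h3 : 0 < Fintype.card (JJ (l + 1) (m + 1 + l)) := Fintype.card_pos_iff.2 ⟨I0 m l⟩
  have h4 : Fintype.card {I : JJ (l + 1) (m + 1 + l) // I ≠ I0 m l} =
      Fintype.card {I : JJ (l + 1) (m + 1 + l) // ¬ (I = I0 m l)} := rfl
  rw [h4, h1, h2]
  omega

theorem adapted (m l : ℕ) (W : Submodule k (Fin (m + 1 + l) → k))
    (hW : Module.finrank k W = m) (y : Fin (m + 1 + l) → k) (hy : y ∉ W) :
    ∃ x : Fin (m + 1 + l) → Fin (m + 1 + l) → k, LinearIndependent k x ∧
      W = Submodule.span k (x '' {j | (j : ℕ) < m}) ∧ x ⟨m, by omega⟩ = y := by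
  let wb : Module.Basis (Fin m) k W := Module.finBasisOfFinrankEq k W hW
  let u : Fin m → Fin (m + 1 + l) → k := fun i => (wb i : Fin (m + 1 + l) → k)
  have hspan : ∀ (n : ℕ) (V : Submodule k (Fin (m + 1 + l) → k)) (vb : Module.Basis (Fin n) k V),
      Submodule.span k (Set.range fun i => (vb i : Fin (m + 1 + l) → k)) = V := by
    intro n V vb
    have : (Set.range fun i => (vb i : Fin (m + 1 + l) → k)) = V.subtype '' Set.range vb := by
      rw [← Set.range_comp]
      rfl
    rw [this, ← Submodule.map_span, vb.span_eq, Submodule.map_top, Submodule.range_subtype]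
  have hli : ∀ (n : ℕ) (V : Submodule k (Fin (m + 1 + l) → k)) (vb : Module.Basis (Fin n) k V),
      LinearIndependent k fun i => (vb i : Fin (m + 1 + l) → k) := by
    intro n V vb
    exact vb.linearIndependent.map' V.subtype (Submodule.ker_subtype V)
  have hu : LinearIndependent k u := hli m W wb
  have hus : Submodule.span k (Set.range u) = W := hspan m W wb
  have h1 : LinearIndependent k (Fin.snoc u y : Fin (m + 1) → Fin (m + 1 + l) → k) :=
    linearIndependent_finSnoc.2 ⟨hu, by rwa [hus]⟩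
  obtain ⟨C, hC⟩ := (Submodule.span k
    (Set.range (Fin.snoc u y : Fin (m + 1) → Fin (m + 1 + l) → k))).exists_isCompl
  have hU := finrank_span_eq_card h1
  have hCl : Module.finrank k C = l := by
    have := Submodule.finrank_add_eq_of_isCompl hC
    rw [hU] at this
    simp at this
    exact this
  let cb : Module.Basis (Fin l) k C := Module.finBasisOfFinrankEq k C hCl
  let c : Fin l → Fin (m + 1 + l) → k := fun i => (cb i : Fin (m + 1 + l) → k)
  have hc : LinearIndependent k c := hli l C cb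
  have hcs : Submodule.span k (Set.range c) = C := hspan l C cb
  have hsum : LinearIndependent k
      (Sum.elim (Fin.snoc u y : Fin (m + 1) → Fin (m + 1 + l) → k) c) :=
    h1.sum_type hc (by rw [hcs]; exact hC.disjoint)
  let x : Fin (m + 1 + l) → Fin (m + 1 + l) → k :=
    fun j => Sum.elim (Fin.snoc u y : Fin (m + 1) → Fin (m + 1 + l) → k) c (finSumFinEquiv.symm j)
  have hx1 : ∀ i : Fin (m + 1), x (Fin.castAdd l i) =
      (Fin.snoc u y : Fin (m + 1) → Fin (m + 1 + l) → k) i := by
    intro i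
    simp only [x, finSumFinEquiv_symm_apply_castAdd, Sum.elim_inl]
  refine ⟨x, hsum.comp _ finSumFinEquiv.symm.injective, ?_, ?_⟩
  · have : x '' {j | (j : ℕ) < m} = Set.range u := by
      ext z
      constructor
      · rintro ⟨j, hj, rfl⟩
        refine ⟨⟨j, hj⟩, ?_⟩
        have e : j = Fin.castAdd l (Fin.castSucc ⟨j, hj⟩) := Fin.ext rfl
        conv_rhs => rw [e]
        rw [hx1, Fin.snoc_castSucc]
      · rintro ⟨i, rfl⟩
        refine ⟨Fin.castAdd l (Fin.castSucc i), i.2, ?_⟩
        rw [hx1, Fin.snoc_castSucc]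
    rw [this, hus]
  · have e : (⟨m, by omega⟩ : Fin (m + 1 + l)) = Fin.castAdd l (Fin.last m) := Fin.ext rfl
    rw [e, hx1, Fin.snoc_last]

end

/-- packet WwdBasic (S16) -/
theorem wwdBasic : CmpdBasic → WwdBasic := by
  intro hC k _ r N hr hrN
  obtain ⟨l, rfl⟩ : ∃ l, r = l + 1 := ⟨r - 1, by omega⟩
  obtain ⟨m, rfl⟩ : ∃ m, N = m + 1 + l := ⟨N - (l + 1), by omega⟩
  have hm : m + 1 + l - (l + 1) = m := by omega
  rw [hm]
  have hli := (hC k (l + 1) (m + 1 + l)).2.2.2.2
  have hset : {I : JJ (l + 1) (m + 1 + l) | ∃ b, ((I.emb b : Fin (m + 1 + l)) : ℕ) < m} =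
      {I | I ≠ I0 m l} := by
    ext I
    exact ne_I0_iff m l I
  refine ⟨?_, ?_⟩
  · intro x hx W hW
    have h1 := Wwd_eq (r := l + 1) x hx (fun j => (j : ℕ) < m) W hW
    refine ⟨h1, ?_⟩
    rw [h1, ← card_ne_I0]
    have h2 : ((fun I : JJ (l + 1) (m + 1 + l) => wd (fun b => x (I.emb b))) ''
        {I | ∃ b, ((I.emb b : Fin (m + 1 + l)) : ℕ) < m}) =
        Set.range (fun I : {I : JJ (l + 1) (m + 1 + l) // I ≠ I0 m l} =>
          wd (fun b => x (I.1.emb b))) := by
      rw [hset]
      ext z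
      constructor
      · rintro ⟨I, hI, rfl⟩
        exact ⟨⟨I, hI⟩, rfl⟩
      · rintro ⟨⟨I, hI⟩, rfl⟩
        exact ⟨I, hI, rfl⟩
    have h3 : LinearIndependent k (fun I : {I : JJ (l + 1) (m + 1 + l) // I ≠ I0 m l} =>
        wd (fun b => x (I.1.emb b))) := (hli x hx).comp _ Subtype.val_injective
    rw [h2, finrank_span_eq_card h3]
  · have key : ∀ W W' : Submodule k (Fin (m + 1 + l) → k), Module.finrank k W = m →
        Wwd (l + 1) W = Wwd (l + 1) W' → W' ≤ W := by
      intro W W' hW hWW y hy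
      by_contra hyW
      obtain ⟨x, hx, hWx, hxy⟩ := adapted m l W hW y hyW
      have h1 := Wwd_eq (r := l + 1) x hx (fun j => (j : ℕ) < m) W hWx
      have h2 : wd (fun b => x ((I0 m l).emb b)) ∈ Wwd (l + 1) W' := by
        refine Submodule.subset_span ⟨fun b => x ((I0 m l).emb b), ⟨0, ?_⟩, rfl⟩
        have e : (I0 m l).emb 0 = ⟨m, by omega⟩ := by
          rw [I0_emb]
          exact Fin.ext (by simp)
        change x ((I0 m l).emb 0) ∈ W'
        rw [e, hxy]
        exact hy
      rw [← hWW, h1, hset] at h2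
      exact (hli x hx).notMem_span_image (x := I0 m l) (by simp) h2
    intro W W' hW hW' hWW
    exact le_antisymm (key W' W (by omega) hWW.symm) (key W W' (by omega) hWW)

end Pool.Agent.Helper3.Ru
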